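import Pool.Agent.SM4.Mid
import Pool.Agent.SMt.Cmp

/-! MP_72ffec_pr: Q1 for four coordinates, domination of a covariance with an involution. -/

open MeasureTheory ProbabilityTheory Real

namespace Pool.Agent.Results.MP_72ffec_pr.FourCoordinates

/-- **Main result: Q1 for `n = 4`, every `β > 0`, and the maximum, when the covariance dominates a
covariance that is invariant under the involution `(0 1)(2 3)` of the coordinates.** Let `X`, `Y` be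
centered Gaussian vectors in `ℝ⁴` with `E X_i² = E Y_i² = 1`, `E Y_i Y_j ≤ E X_i X_j` for all `i`,
`j`, `E Y_0 Y_2 = E Y_1 Y_3` and `E Y_0 Y_3 = E Y_1 Y_2` (`E Y_0 Y_1` and `E Y_2 Y_3` are arbitrary;
`Y = X` is allowed), and `S` a centered Gaussian vector with `E S_i² = 1` and `E S_i S_j = -1/3` for
`i ≠ j` (each on its own probability space). `SMx.IsPerp P X F G` says that `G` is the orthogonal
projection of `F` onto the orthogonal complement of `H_X` in `L²(P)`. (1) For every `β > 0` the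
projections of the soft-maxes exist and `E (G + 1/β)² ≤ E (G' + 1/β)²`. (2) The projections of
`max_i X_i`, `max_i S_i` exist and `E G² ≤ E G'²`. -/
theorem result {Ω Ω' Ω'' : Type*} [MeasurableSpace Ω] [MeasurableSpace Ω'] [MeasurableSpace Ω'']
    (P : Measure Ω) [IsProbabilityMeasure P] (P' : Measure Ω') [IsProbabilityMeasure P']
    (P'' : Measure Ω'') [IsProbabilityMeasure P'']
    (X : Ω → Fin 4 → ℝ) (S : Ω' → Fin 4 → ℝ) (Y : Ω'' → Fin 4 → ℝ) (hX : SMx.CG P X)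
    (hS : SMx.CG P' S) (hY : SMx.CG P'' Y)
    (hX1 : ∀ i, ∫ ω, X ω i ^ 2 ∂P = 1) (hY1 : ∀ i, ∫ ω, Y ω i ^ 2 ∂P'' = 1)
    (hXY : ∀ i j, ∫ ω, Y ω i * Y ω j ∂P'' ≤ ∫ ω, X ω i * X ω j ∂P)
    (hY2 : ∫ ω, Y ω 0 * Y ω 2 ∂P'' = ∫ ω, Y ω 1 * Y ω 3 ∂P'')
    (hY3 : ∫ ω, Y ω 0 * Y ω 3 ∂P'' = ∫ ω, Y ω 1 * Y ω 2 ∂P'')
    (hS1 : ∀ i j, ∫ ω, S ω i * S ω j ∂P' = if i = j then 1 else -1 / 3) :
    (∀ β : ℝ, 0 < β →
      (∃ G, SMx.IsPerp P X (fun ω => SMx.sm β (X ω)) G) ∧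
      (∃ G', SMx.IsPerp P' S (fun ω => SMx.sm β (S ω)) G') ∧
      ∀ (G : Ω → ℝ) (G' : Ω' → ℝ), SMx.IsPerp P X (fun ω => SMx.sm β (X ω)) G →
        SMx.IsPerp P' S (fun ω => SMx.sm β (S ω)) G' →
        ∫ ω, (G ω + 1 / β) ^ 2 ∂P ≤ ∫ ω, (G' ω + 1 / β) ^ 2 ∂P') ∧
    (∃ G, SMx.IsPerp P X (fun ω => max (max (X ω 0) (X ω 1)) (max (X ω 2) (X ω 3))) G) ∧
    (∃ G', SMx.IsPerp P' S (fun ω => max (max (S ω 0) (S ω 1)) (max (S ω 2) (S ω 3))) G') ∧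
    ∀ (G : Ω → ℝ) (G' : Ω' → ℝ),
      SMx.IsPerp P X (fun ω => max (max (X ω 0) (X ω 1)) (max (X ω 2) (X ω 3))) G →
      SMx.IsPerp P' S (fun ω => max (max (S ω 0) (S ω 1)) (max (S ω 2) (S ω 3))) G' →
      ∫ ω, G ω ^ 2 ∂P ≤ ∫ ω, G' ω ^ 2 ∂P' := by
  have hS2 : ∀ i j, ∫ ω, S ω i * S ω j ∂P' = if i = j then 1 else -1 / (((4 : ℕ) : ℝ) - 1) := by
    intro i j
    rw [hS1 i j]
    norm_num
  have hsoft : ∀ β : ℝ, 0 < β → ∀ (G : Ω → ℝ) (G' : Ω' → ℝ),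
      SMx.IsPerp P X (fun ω => SMx.sm β (X ω)) G → SMx.IsPerp P' S (fun ω => SMx.sm β (S ω)) G' →
      ∫ ω, (G ω + 1 / β) ^ 2 ∂P ≤ ∫ ω, (G' ω + 1 / β) ^ 2 ∂P' := by
    intro β hβ G G' hG hG'
    obtain ⟨A, hA⟩ := SMx.root P X hX
    obtain ⟨B, hB⟩ := SMx.root P'' Y hY
    have hA1 : ∀ i, SMx.cv A i i = 1 := fun i => by
      rw [hA i i, ← hX1 i]
      exact integral_congr_ae (Filter.Eventually.of_forall fun ω => (pow_two _).symm)
    have hB1 : ∀ i, SMx.cv B i i = 1 := fun i => by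
      rw [hB i i, ← hY1 i]
      exact integral_congr_ae (Filter.Eventually.of_forall fun ω => (pow_two _).symm)
    have hBI : SM4.Inv B := ⟨by rw [hB, hB]; exact hY2, by rw [hB, hB]; exact hY3⟩
    rw [SMt.perp_spx (by norm_num) β hβ P' S hS hS2 G' hG']
    refine (SMt.perp_Ph (by norm_num) β hβ P X hX A hA G hG).trans ?_
    refine mul_le_mul_of_nonneg_left ?_ (sq_nonneg _)
    exact ((SMt.Ph_le (by norm_num) A B hA1 hB1 (fun i j => by rw [hA, hB]; exact hXY i j) β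
      hβ.le).trans (SMt.Ph_le_FF B β)).trans (SM4.core4 B hB1 hBI β)
  exact ⟨fun β hβ => ⟨SMx.exists_perp (by norm_num) β hβ.ne' P X hX,
      SMx.exists_perp (by norm_num) β hβ.ne' P' S hS, hsoft β hβ⟩,
    SM3.exists_perp_of P X hX _ (SMx.memLp_gr P X hX SM4.gr_max4),
    SM3.exists_perp_of P' S hS _ (SMx.memLp_gr P' S hS SM4.gr_max4),
    fun G G' hG hG' => SM4.max_of_soft4 P P' X S hX hS hsoft G G' hG hG'⟩

end Pool.Agent.Results.MP_72ffec_pr.FourCoordinates
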