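import Pool.Agent.SMx.Fin

/-! MP_72ffec_pr: the soft-max projection inequality in the high temperature range. -/

open MeasureTheory ProbabilityTheory Real

namespace Pool.Agent.Results.MP_72ffec_pr.HighTemperature

/-- **Main result.** Let `n ≥ 2` and `0 < β ≤ max (1/40) (√(log n) / 640)`. Let `X` be any centered
Gaussian vector in `ℝⁿ` with `E X_i² = 1` for all `i`, and `S` a centered Gaussian vector with
`E S_i² = 1` and `E S_i S_j = -1/(n-1)` for `i ≠ j` (each on its own probability space).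
`SMx.IsPerp P X F G` says that `G` is the orthogonal projection of `F` onto the orthogonal
complement of `H_X = span (X_1, …, X_n)` in `L²(P)`. The projections `G` of `f_β(X)` and `G'` of
`f_β(S)` exist, and `E (G + 1/β)² ≤ E (G' + 1/β)²`. -/
theorem result (n : ℕ) (hn : 2 ≤ n) (β : ℝ) (hβ : 0 < β) (h : β ≤ max (1 / 40) (√(log n) / 640))
    {Ω Ω' : Type*} [MeasurableSpace Ω] [MeasurableSpace Ω']
    (P : Measure Ω) [IsProbabilityMeasure P] (P' : Measure Ω') [IsProbabilityMeasure P']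
    (X : Ω → Fin n → ℝ) (S : Ω' → Fin n → ℝ) (hX : SMx.CG P X) (hS : SMx.CG P' S)
    (hX1 : ∀ i, ∫ ω, X ω i ^ 2 ∂P = 1)
    (hS1 : ∀ i j, ∫ ω, S ω i * S ω j ∂P' = if i = j then 1 else -1 / ((n : ℝ) - 1)) :
    (∃ G, SMx.IsPerp P X (fun ω => SMx.sm β (X ω)) G) ∧
    (∃ G', SMx.IsPerp P' S (fun ω => SMx.sm β (S ω)) G') ∧
    ∀ (G : Ω → ℝ) (G' : Ω' → ℝ), SMx.IsPerp P X (fun ω => SMx.sm β (X ω)) G →
      SMx.IsPerp P' S (fun ω => SMx.sm β (S ω)) G' →
      ∫ ω, (G ω + 1 / β) ^ 2 ∂P ≤ ∫ ω, (G' ω + 1 / β) ^ 2 ∂P' :=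
  ⟨SMx.exists_perp (by omega) β hβ.ne' P X hX, SMx.exists_perp (by omega) β hβ.ne' P' S hS,
    fun G G' hG hG' => SMx.final hn β hβ h P P' X S hX hS hX1 hS1 G G' hG hG'⟩

end Pool.Agent.Results.MP_72ffec_pr.HighTemperature
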