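import Pool.Agent.SMg.Mid
import Pool.Agent.SMt.Cmp

/-! MP_72ffec_pr: Q1 for covariances that dominate a covariance in which any two coordinates can be
exchanged, every `n`. -/

open MeasureTheory ProbabilityTheory Real

namespace Pool.Agent.Results.MP_72ffec_pr.SwapDominated

/-- **Main result: Q1 for every `n`, every `β > 0`, and the maximum, when the covariance dominates a
covariance in which any two coordinates can be exchanged.** Let `n ≥ 2` and let `X`, `Y` be centered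
Gaussian vectors in `ℝⁿ` with `E X_i² = E Y_i² = 1` and `E Y_i Y_j ≤ E X_i X_j` for all `i`, `j`.
Assume that for all indices `a`, `b` there is a permutation `σ` of the indices with `σ a = b`,
`σ b = a` and `E Y_(σ i) Y_(σ j) = E Y_i Y_j` for all `i`, `j` (for example `E Y_i Y_j = r (i - j)` on
a finite abelian group, `σ x = a + b - x`; `Y = X` and `Y = S` are allowed). Let `S` be a centered
Gaussian vector in `ℝⁿ` with `E S_i² = 1` and `E S_i S_j = -1/(n-1)` for `i ≠ j` (each on its own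
probability space). `SMx.IsPerp P X F G` says that `G` is the orthogonal projection of `F` onto the
orthogonal complement of `H_X` in `L²(P)`. (1) For every `β > 0` the projections of the soft-maxes
exist and `E (G + 1/β)² ≤ E (G' + 1/β)²`. (2) The projections of `max_i X_i`, `max_i S_i` exist and
`E G² ≤ E G'²`. -/
theorem result {n : ℕ} (hn : 2 ≤ n) {Ω Ω' Ω'' : Type*} [MeasurableSpace Ω] [MeasurableSpace Ω']
    [MeasurableSpace Ω''] (P : Measure Ω) [IsProbabilityMeasure P] (P' : Measure Ω')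
    [IsProbabilityMeasure P'] (P'' : Measure Ω'') [IsProbabilityMeasure P'']
    (X : Ω → Fin n → ℝ) (S : Ω' → Fin n → ℝ) (Y : Ω'' → Fin n → ℝ) (hX : SMx.CG P X)
    (hS : SMx.CG P' S) (hY : SMx.CG P'' Y)
    (hX1 : ∀ i, ∫ ω, X ω i ^ 2 ∂P = 1) (hY1 : ∀ i, ∫ ω, Y ω i ^ 2 ∂P'' = 1)
    (hXY : ∀ i j, ∫ ω, Y ω i * Y ω j ∂P'' ≤ ∫ ω, X ω i * X ω j ∂P)
    (hY2 : ∀ a b : Fin n, ∃ σ : Equiv.Perm (Fin n), σ a = b ∧ σ b = a ∧
      ∀ i j, ∫ ω, Y ω (σ i) * Y ω (σ j) ∂P'' = ∫ ω, Y ω i * Y ω j ∂P'')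
    (hS1 : ∀ i j, ∫ ω, S ω i * S ω j ∂P' = if i = j then 1 else -1 / ((n : ℝ) - 1)) :
    (∀ β : ℝ, 0 < β →
      (∃ G, SMx.IsPerp P X (fun ω => SMx.sm β (X ω)) G) ∧
      (∃ G', SMx.IsPerp P' S (fun ω => SMx.sm β (S ω)) G') ∧
      ∀ (G : Ω → ℝ) (G' : Ω' → ℝ), SMx.IsPerp P X (fun ω => SMx.sm β (X ω)) G →
        SMx.IsPerp P' S (fun ω => SMx.sm β (S ω)) G' →
        ∫ ω, (G ω + 1 / β) ^ 2 ∂P ≤ ∫ ω, (G' ω + 1 / β) ^ 2 ∂P') ∧
    (∃ G, SMx.IsPerp P X (fun ω => ⨆ i, X ω i) G) ∧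
    (∃ G', SMx.IsPerp P' S (fun ω => ⨆ i, S ω i) G') ∧
    ∀ (G : Ω → ℝ) (G' : Ω' → ℝ), SMx.IsPerp P X (fun ω => ⨆ i, X ω i) G →
      SMx.IsPerp P' S (fun ω => ⨆ i, S ω i) G' →
      ∫ ω, G ω ^ 2 ∂P ≤ ∫ ω, G' ω ^ 2 ∂P' := by
  have hn0 : 0 < n := by omega
  have hsoft : ∀ β : ℝ, 0 < β → ∀ (G : Ω → ℝ) (G' : Ω' → ℝ),
      SMx.IsPerp P X (fun ω => SMx.sm β (X ω)) G → SMx.IsPerp P' S (fun ω => SMx.sm β (S ω)) G' →
      ∫ ω, (G ω + 1 / β) ^ 2 ∂P ≤ ∫ ω, (G' ω + 1 / β) ^ 2 ∂P' := by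
    intro β hβ G G' hG hG'
    obtain ⟨A, hA⟩ := SMx.root P X hX
    obtain ⟨B, hB⟩ := SMx.root P'' Y hY
    have hA1 : ∀ i, SMx.cv A i i = 1 := fun i => by
      rw [hA i i, ← hX1 i]
      exact integral_congr_ae (Filter.Eventually.of_forall fun ω => (pow_two _).symm)
    have hB1 : ∀ i, SMx.cv B i i = 1 := fun i => by
      rw [hB i i, ← hY1 i]
      exact integral_congr_ae (Filter.Eventually.of_forall fun ω => (pow_two _).symm)
    have hBs : SMg.Swp (SMx.cv B) := by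
      intro a b
      obtain ⟨σ, h1, h2, h3⟩ := hY2 a b
      exact ⟨σ, h1, h2, fun i j => by rw [hB, hB]; exact h3 i j⟩
    rw [SMt.perp_spx hn β hβ P' S hS hS1 G' hG']
    refine (SMt.perp_Ph hn0 β hβ P X hX A hA G hG).trans ?_
    refine mul_le_mul_of_nonneg_left ?_ (sq_nonneg _)
    exact ((SMt.Ph_le hn0 A B hA1 hB1 (fun i j => by rw [hA, hB]; exact hXY i j) β hβ.le).trans
      (SMt.Ph_le_FF B β)).trans (SMg.core_g hn B hB1 hBs β hβ)
  exact ⟨fun β hβ => ⟨SMx.exists_perp hn0 β hβ.ne' P X hX, SMx.exists_perp hn0 β hβ.ne' P' S hS,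
      hsoft β hβ⟩,
    SM3.exists_perp_of P X hX _ (SMx.memLp_gr P X hX (SMt.gr_max hn0)),
    SM3.exists_perp_of P' S hS _ (SMx.memLp_gr P' S hS (SMt.gr_max hn0)),
    SMt.max_of_soft hn0 P P' X S hX hS hsoft⟩

end Pool.Agent.Results.MP_72ffec_pr.SwapDominated
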