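import Pool.Agent.SM3.Mid
import Pool.Agent.SM3.Max

/-! MP_72ffec_pr: Q1 for three coordinates. -/

open MeasureTheory ProbabilityTheory Real

namespace Pool.Agent.Results.MP_72ffec_pr.ThreeCoordinates

/-- **Main result: Q1 for `n = 3`, every `β > 0`, and the maximum.** Let `X` be any centered Gaussian
vector in `ℝ³` with `E X_i² = 1` for all `i` (any covariance), and `S` a centered Gaussian vector with
`E S_i² = 1` and `E S_i S_j = -1/2` for `i ≠ j` (each on its own probability space).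
`SMx.IsPerp P X F G` says that `G` is the orthogonal projection of `F` onto the orthogonal
complement of `H_X = span (X_0, X_1, X_2)` in `L²(P)`. (1) For every `β > 0` the projections of the
soft-maxes `f_β(X)`, `f_β(S)` exist and `E (G + 1/β)² ≤ E (G' + 1/β)²`. (2) The projections of
`max_i X_i`, `max_i S_i` exist and `E G² ≤ E G'²`. -/
theorem result {Ω Ω' : Type*} [MeasurableSpace Ω] [MeasurableSpace Ω']
    (P : Measure Ω) [IsProbabilityMeasure P] (P' : Measure Ω') [IsProbabilityMeasure P']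
    (X : Ω → Fin 3 → ℝ) (S : Ω' → Fin 3 → ℝ) (hX : SMx.CG P X) (hS : SMx.CG P' S)
    (hX1 : ∀ i, ∫ ω, X ω i ^ 2 ∂P = 1)
    (hS1 : ∀ i j, ∫ ω, S ω i * S ω j ∂P' = if i = j then 1 else -1 / 2) :
    (∀ β : ℝ, 0 < β →
      (∃ G, SMx.IsPerp P X (fun ω => SMx.sm β (X ω)) G) ∧
      (∃ G', SMx.IsPerp P' S (fun ω => SMx.sm β (S ω)) G') ∧
      ∀ (G : Ω → ℝ) (G' : Ω' → ℝ), SMx.IsPerp P X (fun ω => SMx.sm β (X ω)) G →
        SMx.IsPerp P' S (fun ω => SMx.sm β (S ω)) G' →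
        ∫ ω, (G ω + 1 / β) ^ 2 ∂P ≤ ∫ ω, (G' ω + 1 / β) ^ 2 ∂P') ∧
    (∃ G, SMx.IsPerp P X (fun ω => max (X ω 0) (max (X ω 1) (X ω 2))) G) ∧
    (∃ G', SMx.IsPerp P' S (fun ω => max (S ω 0) (max (S ω 1) (S ω 2))) G') ∧
    ∀ (G : Ω → ℝ) (G' : Ω' → ℝ),
      SMx.IsPerp P X (fun ω => max (X ω 0) (max (X ω 1) (X ω 2))) G →
      SMx.IsPerp P' S (fun ω => max (S ω 0) (max (S ω 1) (S ω 2))) G' →
      ∫ ω, G ω ^ 2 ∂P ≤ ∫ ω, G' ω ^ 2 ∂P' :=
  ⟨fun β hβ => ⟨SMx.exists_perp (by norm_num) β hβ.ne' P X hX,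
      SMx.exists_perp (by norm_num) β hβ.ne' P' S hS,
      fun G G' hG hG' => SM3.soft3 β hβ P P' X S hX hS hX1 hS1 G G' hG hG'⟩,
    SM3.exists_perp_of P X hX _ (SMx.memLp_gr P X hX SM3.gr_max),
    SM3.exists_perp_of P' S hS _ (SMx.memLp_gr P' S hS SM3.gr_max),
    fun G G' hG hG' => SM3.max_of_soft P P' X S hX hS
      (fun β hβ G G' hG hG' => SM3.soft3 β hβ P P' X S hX hS hX1 hS1 G G' hG hG') G G' hG hG'⟩

end Pool.Agent.Results.MP_72ffec_pr.ThreeCoordinates
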